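import Mathlib
import Pool.Agent.Helper18.EW.Goals4
import Pool.Agent.Helper46.EW.Fin

/-!
# Packet EW-FinZ: the full theorem
-/

set_option autoImplicit false

namespace Pool.Agent.Helper27.EW

open Finset
open Pool.Agent.Helper43.Hw (NS)
open Pool.Agent.Helper18.EW

theorem log2_bound {m : ℕ} (hm : 1 ≤ m) :
    ((Nat.log 2 m + 10 : ℕ) : ℝ) ≤ 10 * (1 + Real.log m) := by
  have hm0 : (0 : ℝ) < m := by exact_mod_cast hm
  have hm1 : (1 : ℝ) ≤ m := by exact_mod_cast hm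
  have h0 : 0 ≤ Real.log m := Real.log_nonneg hm1
  have h1 : ((Nat.log 2 m : ℕ) : ℝ) * Real.log 2 ≤ Real.log m := by
    have h2 : 2 ^ Nat.log 2 m ≤ m := Nat.pow_log_le_self 2 (by omega)
    have h3 : ((2 : ℝ)) ^ Nat.log 2 m ≤ m := by exact_mod_cast h2
    have h4 := Real.log_le_log (by positivity) h3
    rwa [Real.log_pow] at h4
  have h2 : (0.69 : ℝ) < Real.log 2 := by
    have := Real.log_two_gt_d9
    linarith
  have h3 : (0 : ℝ) ≤ ((Nat.log 2 m : ℕ) : ℝ) := Nat.cast_nonneg _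
  push_cast
  nlinarith

theorem goalFinZ : GoalFinZ := by
  intro hB
  refine ⟨2 ^ 400 * 1000, by positivity, ?_⟩
  intro n m d hm hn
  have hm1 : (1 : ℝ) ≤ m := by exact_mod_cast hm
  have h0 : 0 ≤ Real.log m := Real.log_nonneg hm1
  have hL := log2_bound hm
  have hn2 : 2 ^ 400 * (Nat.log 2 m + 10) ^ 3 ≤ n := by
    have h1 : ((Nat.log 2 m + 10 : ℕ) : ℝ) ^ 3 ≤ (10 * (1 + Real.log m)) ^ 3 :=
      pow_le_pow_left₀ (Nat.cast_nonneg _) hL 3
    have h2 : (2 : ℝ) ^ 400 * ((Nat.log 2 m + 10 : ℕ) : ℝ) ^ 3 ≤ n := by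
      calc (2 : ℝ) ^ 400 * ((Nat.log 2 m + 10 : ℕ) : ℝ) ^ 3
          ≤ (2 : ℝ) ^ 400 * (10 * (1 + Real.log m)) ^ 3 :=
            mul_le_mul_of_nonneg_left h1 (by positivity)
        _ = 2 ^ 400 * 1000 * (1 + Real.log m) ^ 3 := by
            rw [mul_pow]
            ring
        _ ≤ n := hn
    have h3 : ((2 ^ 400 * (Nat.log 2 m + 10) ^ 3 : ℕ) : ℝ) ≤ (n : ℝ) := by
      push_cast at h2 ⊢
      exact h2
    exact_mod_cast h3
  have hn1 : 1 ≤ n := by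
    refine le_trans ?_ hn2
    exact Nat.one_le_iff_ne_zero.2 (by positivity)
  by_cases c1 : 3 * (m : ℤ) ^ 2 ≤ |((d + 2).choose 2 : ℤ) - n * ((m + 1).choose 2 : ℤ)|
  · exact Helper46.EW.far hn1 hm c1
  push Not at c1
  by_cases c2 : 433 * m < n
  · exact Helper46.EW.many hm c2 c1
  push Not at c2
  have h := hB n m d hm hn2 c2 c1
  unfold Ok at h
  rw [Pool.Agent.Lead.Sh.card_triD] at h
  exact Helper46.EW.ns_of_fill h

end Pool.Agent.Helper27.EW
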